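import Pool.Agent.helper54.UG.Spec2

set_option autoImplicit false

namespace Pool.Agent.UG

open Matrix Pool.Agent.H48SL

/-- the subspace `𝔟` -/
def KSD_b (n : ℕ) (D : Type) [DivisionRing D] [Algebra ℚ D] (f : D →ₐ[ℚ] MQ (n + 1)) :
    Submodule ℚ (MQ (n + 1)) where
  carrier := {X | (∀ c, f c * X = X * f c) ∧ X *ᵥ e0 n = 0 ∧ ∀ s, ∃ c, X *ᵥ s = f c *ᵥ e0 n}
  add_mem' := by
    rintro X Y ⟨h1, h2, h3⟩ ⟨h1', h2', h3'⟩
    refine ⟨fun c => ?_, ?_, fun s => ?_⟩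
    · rw [mul_add, add_mul, h1, h1']
    · rw [Matrix.add_mulVec, h2, h2', add_zero]
    · obtain ⟨c, hc⟩ := h3 s
      obtain ⟨c', hc'⟩ := h3' s
      exact ⟨c + c', by rw [Matrix.add_mulVec, hc, hc', map_add, Matrix.add_mulVec]⟩
  zero_mem' := by
    refine ⟨fun c => by rw [mul_zero, zero_mul], Matrix.zero_mulVec _, fun s => ⟨0, ?_⟩⟩
    rw [map_zero, Matrix.zero_mulVec, Matrix.zero_mulVec]
  smul_mem' := by
    rintro r X ⟨h1, h2, h3⟩
    refine ⟨fun c => ?_, ?_, fun s => ?_⟩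
    · rw [mul_smul_comm, smul_mul_assoc, h1]
    · rw [Matrix.smul_mulVec, h2, smul_zero]
    · obtain ⟨c, hc⟩ := h3 s
      exact ⟨r • c, by rw [Matrix.smul_mulVec, hc, map_smul, Matrix.smul_mulVec]⟩

theorem KSD_mem {n : ℕ} {D : Type} [DivisionRing D] [Algebra ℚ D] {f : D →ₐ[ℚ] MQ (n + 1)}
    {X : MQ (n + 1)} : X ∈ KSD_b n D f ↔
      (∀ c, f c * X = X * f c) ∧ X *ᵥ e0 n = 0 ∧ ∀ s, ∃ c, X *ᵥ s = f c *ᵥ e0 n := Iff.rfl

theorem KSD_mul {n : ℕ} {D : Type} [DivisionRing D] [Algebra ℚ D] {f : D →ₐ[ℚ] MQ (n + 1)}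
    {X Y : MQ (n + 1)} (hX : X ∈ KSD_b n D f) (hY : Y ∈ KSD_b n D f) : X * Y = 0 := by
  rw [KSD_mem] at hX hY
  have h : ∀ s, (X * Y) *ᵥ s = (0 : MQ (n + 1)) *ᵥ s := by
    intro s
    obtain ⟨c, hc⟩ := hY.2.2 s
    rw [← Matrix.mulVec_mulVec, hc, Matrix.mulVec_mulVec, ← hX.1 c, ← Matrix.mulVec_mulVec, hX.2.1,
      Matrix.mulVec_zero, Matrix.zero_mulVec]
  exact Matrix.ext_of_mulVec_single fun i => h _

theorem KSD_e0 (n : ℕ) : e0 n ≠ 0 := by
  intro h
  have := congrFun h 0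
  unfold e0 at this
  rw [Pi.single_eq_same] at this
  exact one_ne_zero this

theorem KSD (hKLF : KLF_stmt) : KSD_stmt := by
  intro n D _ _ _ f H hD2 hDn hH
  refine ⟨KSD_b n D f, fun X hX => (KSD_mem.1 hX).2.1, ⟨2, ?_⟩, ?_, ?_⟩
  · intro l hl hlen
    match l, hl, hlen with
    | X :: Y :: l', hl, _ =>
      rw [List.prod_cons, List.prod_cons, ← mul_assoc,
        KSD_mul (hl X (by simp)) (hl Y (by simp)), zero_mul]
    | [X], _, hlen => simp at hlen
    | [], _, hlen => simp at hlen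
  · intro X hX
    have hXX : X * X = 0 := KSD_mul hX hX
    obtain ⟨k, hk, h, hh, e⟩ := hH X (KSD_mem.1 hX).1 hXX
    refine ⟨k, hk, h, hh, ?_⟩
    rw [e, IsNilpotent.exp_eq_sum (k := 2) (by
      rw [pow_two, smul_mul_smul_comm, hXX, smul_zero])]
    simp [Finset.sum_range_succ]
  · intro u
    obtain ⟨-, -, h3⟩ := hKLF (n + 1) D f hDn
    obtain ⟨ξ, e, hξ, hξ0, hξe⟩ := h3 (e0 n) (KSD_e0 n)
    -- the scalar
    obtain ⟨c, hc, hcu⟩ : ∃ c : D, c ≠ 0 ∧ (ξ u * c = 0 ∨ ξ u * c = 1) := by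
      by_cases h : ξ u = 0
      · exact ⟨1, one_ne_zero, Or.inl (by rw [h, zero_mul])⟩
      · exact ⟨(ξ u)⁻¹, inv_ne_zero h, Or.inr (mul_inv_cancel₀ h)⟩
    let L : (Fin (n + 1) → ℚ) →ₗ[ℚ] (Fin (n + 1) → ℚ) :=
      { toFun := fun s => f (ξ s * c) *ᵥ e0 n
        map_add' := fun s t => by
          rw [map_add, add_mul, map_add, Matrix.add_mulVec]
        map_smul' := fun r s => by
          rw [map_smul, smul_mul_assoc, map_smul, Matrix.smul_mulVec]
          rfl }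
    have hL : ∀ s, L s = f (ξ s * c) *ᵥ e0 n := fun s => rfl
    obtain ⟨Y, hY⟩ : ∃ Y : MQ (n + 1), ∀ s, Y *ᵥ s = f (ξ s * c) *ᵥ e0 n :=
      ⟨LinearMap.toMatrix' L, fun s => by rw [LinearMap.toMatrix'_mulVec, hL]⟩
    have hYb : Y ∈ KSD_b n D f := by
      rw [KSD_mem]
      refine ⟨fun a => ?_, ?_, fun s => ⟨_, hY s⟩⟩
      · refine Matrix.ext_of_mulVec_single fun i => ?_
        rw [← Matrix.mulVec_mulVec, ← Matrix.mulVec_mulVec, hY, hY, hξ, Matrix.mulVec_mulVec,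
          ← map_mul, mul_assoc]
      · rw [hY, hξ0, zero_mul, map_zero, Matrix.zero_mulVec]
    refine ⟨Y, hYb, ?_, ?_⟩
    · intro hdn
      have hk := (kill_iff Y).1 (KSD_mem.1 hYb).2.1
      have hs : ∀ s (i : Fin n), (Y *ᵥ s) i.succ = 0 := by
        intro s i
        rw [Matrix.mulVec, dotProduct, Fin.sum_univ_succ, hk, zero_mul, zero_add]
        apply Finset.sum_eq_zero
        intro j _
        have h1 : Y i.succ j.succ = 0 := congrFun (congrFun hdn i) j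
        rw [h1, zero_mul]
      have ha : ∀ a : D, ∃ r : ℚ, f a *ᵥ e0 n = r • e0 n := by
        intro a
        have h1 : Y *ᵥ (f (a * c⁻¹) *ᵥ e) = f a *ᵥ e0 n := by
          rw [hY, hξ, hξe, mul_one, mul_assoc, inv_mul_cancel₀ hc, mul_one]
        refine ⟨(f a *ᵥ e0 n) 0, ?_⟩
        ext i
        refine Fin.cases ?_ (fun i => ?_) i
        · simp [e0]
        · rw [← h1, hs]
          simp [e0]
      have hfin : Module.finrank ℚ D ≤ 1 := by
        refine finrank_le_one (1 : D) fun a => ?_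
        obtain ⟨r, hr⟩ := ha a
        refine ⟨r, ?_⟩
        by_contra hne
        have h1 : a - r • (1 : D) ≠ 0 := fun h => hne (sub_eq_zero.1 h).symm
        have h2 : f (a - r • (1 : D)) *ᵥ e0 n = 0 := by
          rw [map_sub, map_smul, map_one, Matrix.sub_mulVec, hr, Matrix.smul_mulVec, Matrix.one_mulVec,
            sub_self]
        have h3 : f ((a - r • (1 : D))⁻¹ * (a - r • (1 : D))) *ᵥ e0 n = 0 := by
          rw [map_mul, ← Matrix.mulVec_mulVec, h2, Matrix.mulVec_zero]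
        rw [inv_mul_cancel₀ h1, map_one, Matrix.one_mulVec] at h3
        exact KSD_e0 n h3
      omega
    · intro i
      rw [hY]
      rcases hcu with h | h
      · rw [h, map_zero, Matrix.zero_mulVec]
        rfl
      · rw [h, map_one, Matrix.one_mulVec]
        simp [e0]

end Pool.Agent.UG
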